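import Mathlib

/-!
Closure of Mathlib's context-free languages under finite transductions; in particular under
inverse morphisms and intersection with regular languages.
-/

set_option autoImplicit false

namespace Pool.Agent.MP_52db1d_lc

open Relation

universe u

/-- Big-step generation of terminal words from sentential forms. -/
inductive Gen {T : Type u} (g : ContextFreeGrammar T) : List (Symbol T g.NT) → List T → Prop
  | nil : Gen g [] []
  | term (a : T) {s : List (Symbol T g.NT)} {w : List T} (h : Gen g s w) :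
      Gen g (Symbol.terminal a :: s) (a :: w)
  | nt (r : ContextFreeRule T g.NT) (hr : r ∈ g.rules) {s : List (Symbol T g.NT)}
      {v w : List T} (h₁ : Gen g r.output v) (h₂ : Gen g s w) :
      Gen g (Symbol.nonterminal r.input :: s) (v ++ w)

section

variable {T : Type u} {g : ContextFreeGrammar T}

theorem Gen.map_terminal (w : List T) : Gen g (w.map Symbol.terminal) w := by
  induction w with
  | nil => exact Gen.nil
  | cons a w ih => exact Gen.term a ih

theorem Gen.derives {s : List (Symbol T g.NT)} {w : List T} (h : Gen g s w) :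
    g.Derives s (w.map Symbol.terminal) := by
  induction h with
  | nil => exact ReflTransGen.refl
  | term a _ ih =>
    have := ih.append_left [Symbol.terminal a]
    simpa using this
  | nt r hr h₁ h₂ ih₁ ih₂ =>
    rename_i s v w
    have h0 : g.Produces ([Symbol.nonterminal r.input] ++ s) (r.output ++ s) :=
      ⟨r, hr, ContextFreeRule.Rewrites.head s⟩
    have h1 : g.Derives (r.output ++ s) (v.map Symbol.terminal ++ s) := ih₁.append_right s
    have h2 : g.Derives (v.map Symbol.terminal ++ s)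
        (v.map Symbol.terminal ++ w.map Symbol.terminal) := ih₂.append_left _
    have := (h0.single.trans h1).trans h2
    simpa using this

theorem Gen.append_inv {s₁ s₂ : List (Symbol T g.NT)} {w : List T} (h : Gen g (s₁ ++ s₂) w) :
    ∃ u v, w = u ++ v ∧ Gen g s₁ u ∧ Gen g s₂ v := by
  induction s₁ generalizing w with
  | nil => exact ⟨[], w, rfl, Gen.nil, h⟩
  | cons a s₁ ih =>
    rw [List.cons_append] at h
    cases h with
    | term a h =>
      obtain ⟨u, v, rfl, h1, h2⟩ := ih h
      exact ⟨_ :: u, v, rfl, Gen.term _ h1, h2⟩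
    | nt r hr h₁ h₂ =>
      obtain ⟨u, v, rfl, h1, h2⟩ := ih h₂
      exact ⟨_ ++ u, v, by simp, Gen.nt r hr h₁ h1, h2⟩

theorem Gen.append {s₁ s₂ : List (Symbol T g.NT)} {u v : List T} (h₁ : Gen g s₁ u)
    (h₂ : Gen g s₂ v) : Gen g (s₁ ++ s₂) (u ++ v) := by
  induction h₁ with
  | nil => exact h₂
  | term a _ ih => exact Gen.term a ih
  | nt r hr h _ _ ih =>
    rw [List.append_assoc]
    exact Gen.nt r hr h ih

theorem Gen.of_rewrites {r : ContextFreeRule T g.NT} (hr : r ∈ g.rules)
    {s s' : List (Symbol T g.NT)} (hrw : r.Rewrites s s') {w : List T} (h : Gen g s' w) :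
    Gen g s w := by
  induction hrw generalizing w with
  | head s =>
    obtain ⟨u, v, rfl, h1, h2⟩ := h.append_inv
    exact Gen.nt r hr h1 h2
  | cons x _ ih =>
    cases h with
    | term a h => exact Gen.term _ (ih h)
    | nt r' hr' h₁ h₂ => exact Gen.nt r' hr' h₁ (ih h₂)

theorem gen_iff_derives {s : List (Symbol T g.NT)} {w : List T} :
    Gen g s w ↔ g.Derives s (w.map Symbol.terminal) := by
  refine ⟨Gen.derives, fun h => ?_⟩
  induction h using ReflTransGen.head_induction_on with
  | refl => exact Gen.map_terminal w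
  | head h _ ih =>
    obtain ⟨r, hr, hrw⟩ := h
    exact Gen.of_rewrites hr hrw ih

theorem mem_language_iff_gen {w : List T} :
    w ∈ g.language ↔ Gen g [Symbol.nonterminal g.initial] w := by
  rw [ContextFreeGrammar.mem_language_iff, gen_iff_derives]

end

/-! ### Transducers -/

section Transducer

variable {X : Type} {Y : Type} {Q : Type}

/-- Computation paths of a transducer with reading moves `dr` and emitting moves `de`. -/
inductive TPath (dr : Q → X → Q → Prop) (de : Q → Y → Q → Prop) :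
    Q → List X → List Y → Q → Prop
  | nil (q : Q) : TPath dr de q [] [] q
  | emit {q q' q'' : Q} {y : Y} {v : List X} {w : List Y} (h : de q y q')
      (hp : TPath dr de q' v w q'') : TPath dr de q v (y :: w) q''
  | read {q q' q'' : Q} {x : X} {v : List X} {w : List Y} (h : dr q x q')
      (hp : TPath dr de q' v w q'') : TPath dr de q (x :: v) w q''

variable {dr : Q → X → Q → Prop} {de : Q → Y → Q → Prop}

theorem TPath.append {q q' q'' : Q} {v v' : List X} {w w' : List Y}
    (h : TPath dr de q v w q') (h' : TPath dr de q' v' w' q'') :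
    TPath dr de q (v ++ v') (w ++ w') q'' := by
  induction h with
  | nil => exact h'
  | emit h _ ih => exact TPath.emit h (ih h')
  | read h _ ih => exact TPath.read h (ih h')

theorem TPath.split {q q'' : Q} {vv : List X} {w : List Y} (h : TPath dr de q vv w q'')
    (v v' : List X) (hv : vv = v ++ v') :
    ∃ w₁ w₂ q', w = w₁ ++ w₂ ∧ TPath dr de q v w₁ q' ∧ TPath dr de q' v' w₂ q'' := by
  induction h generalizing v with
  | nil q =>
    have h1 : v = [] := by
      cases v <;> simp_all
    have h2 : v' = [] := by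
      subst h1
      simpa using hv.symm
    subst h1 h2
    exact ⟨[], [], q, rfl, TPath.nil q, TPath.nil q⟩
  | emit h hp ih =>
    obtain ⟨w₁, w₂, q', rfl, h1, h2⟩ := ih v hv
    exact ⟨_ :: w₁, w₂, q', rfl, TPath.emit h h1, h2⟩
  | read h hp ih =>
    rename_i q q' q'' x vv w
    cases v with
    | nil =>
      rw [List.nil_append] at hv
      subst hv
      exact ⟨[], w, q, rfl, TPath.nil q, TPath.read h hp⟩
    | cons a v =>
      rw [List.cons_append] at hv
      injection hv with hv1 hv2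
      subst hv1
      obtain ⟨w₁, w₂, q', rfl, h1, h2⟩ := ih v hv2
      exact ⟨w₁, w₂, q', rfl, TPath.read h h1, h2⟩

/-- Nonterminals of the product grammar. -/
inductive PNT (Q S : Type) : Type
  | start : PNT Q S
  | eps (s s' : Q) : PNT Q S
  | sym (s : Q) (σ : S) (s' : Q) : PNT Q S

variable (g : ContextFreeGrammar X)

/-- Expansion of a right-hand side along a sequence of states. -/
inductive Expand : Q → List (Symbol X g.NT) → Q →
    List (Symbol Y (PNT Q (Symbol X g.NT))) → Prop
  | nil (s s' : Q) : Expand s [] s' [Symbol.nonterminal (PNT.eps s s')]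
  | cons (s s₁ s' : Q) (σ : Symbol X g.NT) {σs : List (Symbol X g.NT)}
      {l : List (Symbol Y (PNT Q (Symbol X g.NT)))} (h : Expand s₁ σs s' l) :
      Expand s (σ :: σs) s' (Symbol.nonterminal (PNT.sym s σ s₁) :: l)

theorem finite_expand [Finite Q] (σs : List (Symbol X g.NT)) (s' : Q) :
    ∀ s : Q, {l : List (Symbol Y (PNT Q (Symbol X g.NT))) | Expand (Y := Y) g s σs s' l}.Finite := by
  induction σs with
  | nil =>
    intro s
    refine (Set.finite_singleton [Symbol.nonterminal (PNT.eps s s')]).subset ?_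
    intro l hl
    cases hl
    rfl
  | cons σ σs ih =>
    intro s
    have : {l : List (Symbol Y (PNT Q (Symbol X g.NT))) | Expand (Y := Y) g s (σ :: σs) s' l} ⊆
        ⋃ s₁ : Q, (fun l => Symbol.nonterminal (PNT.sym s σ s₁) :: l) ''
          {l : List (Symbol Y (PNT Q (Symbol X g.NT))) | Expand (Y := Y) g s₁ σs s' l} := by
      intro l hl
      cases hl with
      | cons _ s₁ _ _ h =>
        exact Set.mem_iUnion.mpr ⟨s₁, _, h, rfl⟩
    exact (Set.finite_iUnion fun s₁ => (ih s₁).image _).subset this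

/-- The rules of the product grammar. -/
inductive PRule (dr : Q → X → Q → Prop) (de : Q → Y → Q → Prop) (q₀ : Q) (Fin' : Set Q) :
    ContextFreeRule Y (PNT Q (Symbol X g.NT)) → Prop
  | start (qf : Q) (h : qf ∈ Fin') : PRule dr de q₀ Fin'
      ⟨PNT.start, [Symbol.nonterminal (PNT.sym q₀ (Symbol.nonterminal g.initial) qf)]⟩
  | epsNil (s : Q) : PRule dr de q₀ Fin' ⟨PNT.eps s s, []⟩
  | epsEmit (s s' s'' : Q) (y : Y) (h : de s y s') : PRule dr de q₀ Fin'
      ⟨PNT.eps s s'', [Symbol.terminal y, Symbol.nonterminal (PNT.eps s' s'')]⟩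
  | symEmit (s s' s'' : Q) (y : Y) (x : X) (h : de s y s') : PRule dr de q₀ Fin'
      ⟨PNT.sym s (Symbol.terminal x) s'', [Symbol.terminal y,
        Symbol.nonterminal (PNT.sym s' (Symbol.terminal x) s'')]⟩
  | symRead (s s' s'' : Q) (x : X) (h : dr s x s') : PRule dr de q₀ Fin'
      ⟨PNT.sym s (Symbol.terminal x) s'', [Symbol.nonterminal (PNT.eps s' s'')]⟩
  | rule (r : ContextFreeRule X g.NT) (hr : r ∈ g.rules) (s s' : Q)
      (l : List (Symbol Y (PNT Q (Symbol X g.NT)))) (hl : Expand g s r.output s' l) :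
      PRule dr de q₀ Fin' ⟨PNT.sym s (Symbol.nonterminal r.input) s', l⟩

theorem finite_prule [Finite Q] [Finite X] [Finite Y] (dr : Q → X → Q → Prop)
    (de : Q → Y → Q → Prop) (q₀ : Q) (Fin' : Set Q) :
    {r : ContextFreeRule Y (PNT Q (Symbol X g.NT)) | PRule g dr de q₀ Fin' r}.Finite := by
  have h1 : (Set.range fun qf : Q => (⟨PNT.start, [Symbol.nonterminal
      (PNT.sym q₀ (Symbol.nonterminal g.initial) qf)]⟩ :
      ContextFreeRule Y (PNT Q (Symbol X g.NT)))).Finite := Set.finite_range _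
  have h2 : (Set.range fun s : Q => (⟨PNT.eps s s, []⟩ :
      ContextFreeRule Y (PNT Q (Symbol X g.NT)))).Finite := Set.finite_range _
  have h3 : (Set.range fun p : Q × Q × Q × Y => (⟨PNT.eps p.1 p.2.2.1, [Symbol.terminal p.2.2.2,
      Symbol.nonterminal (PNT.eps p.2.1 p.2.2.1)]⟩ :
      ContextFreeRule Y (PNT Q (Symbol X g.NT)))).Finite := Set.finite_range _
  have h4 : (Set.range fun p : Q × Q × Q × Y × X => (⟨PNT.sym p.1 (Symbol.terminal p.2.2.2.2)
      p.2.2.1, [Symbol.terminal p.2.2.2.1,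
      Symbol.nonterminal (PNT.sym p.2.1 (Symbol.terminal p.2.2.2.2) p.2.2.1)]⟩ :
      ContextFreeRule Y (PNT Q (Symbol X g.NT)))).Finite := Set.finite_range _
  have h5 : (Set.range fun p : Q × Q × Q × X => (⟨PNT.sym p.1 (Symbol.terminal p.2.2.2)
      p.2.2.1, [Symbol.nonterminal (PNT.eps p.2.1 p.2.2.1)]⟩ :
      ContextFreeRule Y (PNT Q (Symbol X g.NT)))).Finite := Set.finite_range _
  have h6 : (⋃ r ∈ g.rules, ⋃ p : Q × Q,
      (fun l => (⟨PNT.sym p.1 (Symbol.nonterminal r.input) p.2, l⟩ :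
        ContextFreeRule Y (PNT Q (Symbol X g.NT)))) ''
        {l : List (Symbol Y (PNT Q (Symbol X g.NT))) | Expand g p.1 r.output p.2 l}).Finite := by
    refine Set.Finite.biUnion (Finset.finite_toSet _) fun r _ => ?_
    exact Set.finite_iUnion fun p => (finite_expand g r.output p.2 p.1).image _
  refine (((((h1.union h2).union h3).union h4).union h5).union h6).subset ?_
  intro r hr
  cases hr with
  | start qf h => exact Or.inl (Or.inl (Or.inl (Or.inl (Or.inl ⟨qf, rfl⟩))))
  | epsNil s => exact Or.inl (Or.inl (Or.inl (Or.inl (Or.inr ⟨s, rfl⟩))))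
  | epsEmit s s' s'' y h => exact Or.inl (Or.inl (Or.inl (Or.inr ⟨(s, s', s'', y), rfl⟩)))
  | symEmit s s' s'' y x h => exact Or.inl (Or.inl (Or.inr ⟨(s, s', s'', y, x), rfl⟩))
  | symRead s s' s'' x h => exact Or.inl (Or.inr ⟨(s, s', s'', x), rfl⟩)
  | rule r hr s s' l hl =>
    refine Or.inr ?_
    simp only [Set.mem_iUnion]
    exact ⟨r, hr, (s, s'), l, hl, rfl⟩

/-- The product grammar. -/
noncomputable def prodGrammar [Finite Q] [Finite X] [Finite Y] (dr : Q → X → Q → Prop)
    (de : Q → Y → Q → Prop) (q₀ : Q) (Fin' : Set Q) : ContextFreeGrammar Y where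
  NT := PNT Q (Symbol X g.NT)
  initial := PNT.start
  rules := (finite_prule g dr de q₀ Fin').toFinset

/-- The semantics of the nonterminals. -/
def Sem (g : ContextFreeGrammar X) (dr : Q → X → Q → Prop) (de : Q → Y → Q → Prop) (q₀ : Q)
    (Fin' : Set Q) : PNT Q (Symbol X g.NT) → List Y → Prop
  | PNT.start, w => ∃ qf ∈ Fin', ∃ v, Gen g [Symbol.nonterminal g.initial] v ∧
      TPath dr de q₀ v w qf
  | PNT.eps s s', w => TPath dr de s [] w s'
  | PNT.sym s σ s', w => ∃ v, Gen g [σ] v ∧ TPath dr de s v w s'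

/-- Semantics of sentential forms. -/
def SemL (g : ContextFreeGrammar X) (dr : Q → X → Q → Prop) (de : Q → Y → Q → Prop) (q₀ : Q)
    (Fin' : Set Q) : List (Symbol Y (PNT Q (Symbol X g.NT))) → List Y → Prop
  | [], w => w = []
  | Symbol.terminal y :: s, w => ∃ w', w = y :: w' ∧ SemL g dr de q₀ Fin' s w'
  | Symbol.nonterminal n :: s, w => ∃ u v, w = u ++ v ∧ Sem g dr de q₀ Fin' n u ∧
      SemL g dr de q₀ Fin' s v

variable [Finite Q] [Finite X] [Finite Y] {g : ContextFreeGrammar X} {q₀ : Q} {Fin' : Set Q}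

omit [Finite Q] [Finite X] [Finite Y] in
theorem semL_expand {s s' : Q} {σs : List (Symbol X g.NT)}
    {l : List (Symbol Y (PNT Q (Symbol X g.NT)))} (h : Expand g s σs s' l) {w : List Y}
    (hw : SemL g dr de q₀ Fin' l w) : ∃ v, Gen g σs v ∧ TPath dr de s v w s' := by
  induction h generalizing w with
  | nil s s' =>
    obtain ⟨u, v, rfl, h1, h2⟩ := hw
    have h2' : v = [] := h2
    subst h2'
    refine ⟨[], Gen.nil, ?_⟩
    rw [List.append_nil]
    exact h1
  | cons s s₁ s' σ h ih =>
    obtain ⟨u, v, rfl, ⟨v1, hg, hp⟩, h2⟩ := hw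
    obtain ⟨v', hg', hp'⟩ := ih h2
    exact ⟨v1 ++ v', hg.append hg', hp.append hp'⟩

omit [Finite Q] [Finite X] [Finite Y] in
theorem sem_rule {r : ContextFreeRule Y (PNT Q (Symbol X g.NT))}
    (hr : PRule g dr de q₀ Fin' r) {w : List Y} (hw : SemL g dr de q₀ Fin' r.output w) :
    Sem g dr de q₀ Fin' r.input w := by
  cases hr with
  | start qf h =>
    obtain ⟨u, v, rfl, h1, h2⟩ := hw
    have h2' : v = [] := h2
    subst h2'
    rw [List.append_nil]
    exact ⟨qf, h, h1⟩
  | epsNil s =>
    have : w = [] := hw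
    subst this
    exact TPath.nil s
  | epsEmit s s' s'' y h =>
    obtain ⟨w', rfl, u, v, rfl, h1, h2⟩ := hw
    have h2' : v = [] := h2
    subst h2'
    rw [List.append_nil]
    exact TPath.emit h h1
  | symEmit s s' s'' y x h =>
    obtain ⟨w', rfl, u, v, rfl, ⟨v1, hg, hp⟩, h2⟩ := hw
    have h2' : v = [] := h2
    subst h2'
    rw [List.append_nil]
    exact ⟨v1, hg, TPath.emit h hp⟩
  | symRead s s' s'' x h =>
    obtain ⟨u, v, rfl, h1, h2⟩ := hw
    have h2' : v = [] := h2
    subst h2'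
    rw [List.append_nil]
    exact ⟨[x], Gen.term x Gen.nil, TPath.read h h1⟩
  | rule r hr s s' l hl =>
    obtain ⟨v, hg, hp⟩ := semL_expand hl hw
    refine ⟨v, ?_, hp⟩
    have := Gen.nt r hr hg Gen.nil
    rwa [List.append_nil] at this

theorem semL_of_gen {s : List (Symbol Y (prodGrammar g dr de q₀ Fin').NT)} {w : List Y}
    (h : Gen (prodGrammar g dr de q₀ Fin') s w) : SemL g dr de q₀ Fin' s w := by
  induction h with
  | nil => rfl
  | term a _ ih => exact ⟨_, rfl, ih⟩
  | nt r hr _ _ ih₁ ih₂ =>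
    refine ⟨_, _, rfl, ?_, ih₂⟩
    exact sem_rule ((Set.Finite.mem_toFinset _).mp hr) ih₁

theorem prule_mem {r : ContextFreeRule Y (PNT Q (Symbol X g.NT))}
    (hr : PRule g dr de q₀ Fin' r) : r ∈ (prodGrammar g dr de q₀ Fin').rules :=
  (Set.Finite.mem_toFinset _).mpr hr

theorem gen_of_prule {n : PNT Q (Symbol X g.NT)} {o : List (Symbol Y (PNT Q (Symbol X g.NT)))}
    (hr : PRule g dr de q₀ Fin' ⟨n, o⟩) {w : List Y}
    (h : Gen (prodGrammar g dr de q₀ Fin') o w) :
    Gen (prodGrammar g dr de q₀ Fin') [Symbol.nonterminal n] w := by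
  have := Gen.nt (g := prodGrammar g dr de q₀ Fin') ⟨n, o⟩ (prule_mem hr) h Gen.nil
  rwa [List.append_nil] at this

theorem gen_eps {s s' : Q} {v : List X} {w : List Y} (h : TPath dr de s v w s') (hv : v = []) :
    Gen (prodGrammar g dr de q₀ Fin') [Symbol.nonterminal (PNT.eps s s')] w := by
  induction h with
  | nil q => exact gen_of_prule (PRule.epsNil q) Gen.nil
  | emit h _ ih => exact gen_of_prule (PRule.epsEmit _ _ _ _ h) (Gen.term _ (ih hv))
  | read h _ ih => cases hv

theorem gen_sym_terminal {s s' : Q} {x : X} {v : List X} {w : List Y}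
    (h : TPath dr de s v w s') (hv : v = [x]) :
    Gen (prodGrammar g dr de q₀ Fin')
      [Symbol.nonterminal (PNT.sym s (Symbol.terminal x) s')] w := by
  induction h with
  | nil q => cases hv
  | emit h _ ih => exact gen_of_prule (PRule.symEmit _ _ _ _ _ h) (Gen.term _ (ih hv))
  | read h hp ih =>
    injection hv with h1 h2
    subst h1
    exact gen_of_prule (PRule.symRead _ _ _ _ h) (gen_eps hp h2)

theorem gen_complete {σs : List (Symbol X g.NT)} {v : List X} (h : Gen g σs v) :
    ∀ (s : Q) (w : List Y) (s' : Q), TPath dr de s v w s' →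
      ∃ l, Expand g s σs s' l ∧ Gen (prodGrammar g dr de q₀ Fin') l w := by
  induction h with
  | nil =>
    intro s w s' hp
    exact ⟨_, Expand.nil s s', gen_eps hp rfl⟩
  | term a _ ih =>
    intro s w s' hp
    obtain ⟨w₁, w₂, q', rfl, h1, h2⟩ := hp.split [a] _ rfl
    obtain ⟨l, hl, hg⟩ := ih q' w₂ s' h2
    refine ⟨_, Expand.cons s q' s' _ hl, ?_⟩
    exact (gen_sym_terminal (g := g) (q₀ := q₀) (Fin' := Fin') h1 rfl).append hg
  | nt r hr _ _ ih₁ ih₂ =>
    intro s w s' hp
    obtain ⟨w₁, w₂, q', rfl, h1, h2⟩ := hp.split _ _ rfl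
    obtain ⟨l₁, hl₁, hg₁⟩ := ih₁ s w₁ q' h1
    obtain ⟨l₂, hl₂, hg₂⟩ := ih₂ q' w₂ s' h2
    refine ⟨_, Expand.cons s q' s' _ hl₂, ?_⟩
    exact (gen_of_prule (PRule.rule r hr s q' l₁ hl₁) hg₁).append hg₂

theorem mem_prodGrammar_language {w : List Y} :
    w ∈ (prodGrammar g dr de q₀ Fin').language ↔
      ∃ qf ∈ Fin', ∃ v ∈ g.language, TPath dr de q₀ v w qf := by
  rw [mem_language_iff_gen]
  constructor
  · intro h
    obtain ⟨u, v, rfl, ⟨qf, hqf, v', hg, hp⟩, h2⟩ := semL_of_gen h
    have h2' : v = [] := h2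
    subst h2'
    rw [List.append_nil]
    exact ⟨qf, hqf, v', mem_language_iff_gen.mpr hg, hp⟩
  · rintro ⟨qf, hqf, v, hv, hp⟩
    have hv' := mem_language_iff_gen.mp hv
    refine gen_of_prule (PRule.start qf hqf) ?_
    generalize hs : [Symbol.nonterminal g.initial] = s at hv'
    cases hv' with
    | nil => cases hs
    | term a h => cases hs
    | nt r hr h₁ h₂ =>
      injection hs with h3 h4
      injection h3 with h5
      subst h4
      cases h₂
      rw [List.append_nil] at hp
      obtain ⟨l, hl, hg⟩ := gen_complete (Fin' := Fin') (q₀ := q₀) h₁ q₀ w qf hp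
      rw [h5]
      exact gen_of_prule (PRule.rule r hr q₀ qf l hl) hg

end Transducer

section InverseMorphism

variable {X : Type} {Y : Type} {σ : Type}

/-- Suffixes of images of letters. -/
def Buf (h : Y → List X) : Type := {l : List X // l = [] ∨ ∃ y, l <:+ h y}

instance [Finite Y] (h : Y → List X) : Finite (Buf h) := by
  have h1 : (⋃ y : Y, {l : List X | l <:+ h y}).Finite := by
    refine Set.finite_iUnion fun y => ?_
    have : {l : List X | l <:+ h y} = {l | l ∈ (h y).tails} := by
      ext l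
      simp
    rw [this]
    exact List.finite_toSet _
  have h2 : {l : List X | l = [] ∨ ∃ y, l <:+ h y}.Finite := by
    refine ((Set.finite_singleton []).union h1).subset ?_
    rintro l (hl | ⟨y, hl⟩)
    · exact Or.inl hl
    · exact Or.inr (Set.mem_iUnion.mpr ⟨y, hl⟩)
  exact h2

/-- Reading moves. -/
def imRead (h : Y → List X) : σ × Buf h → X → σ × Buf h → Prop :=
  fun p x p' => p.2.1 = x :: p'.2.1 ∧ p'.1 = p.1

/-- Emitting moves. -/
def imEmit (h : Y → List X) (δ : σ → Y → σ) : σ × Buf h → Y → σ × Buf h → Prop :=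
  fun p y p' => p.2.1 = [] ∧ p'.2.1 = h y ∧ p'.1 = δ p.1 y

theorem im_sound (h : Y → List X) (δ : σ → Y → σ) {p p' : σ × Buf h} {v : List X} {w : List Y}
    (hp : TPath (imRead h) (imEmit h δ) p v w p') (hp' : p'.2.1 = []) :
    v = p.2.1 ++ w.flatMap h ∧ p'.1 = w.foldl δ p.1 := by
  induction hp with
  | nil q => simp [hp']
  | emit hm _ ih =>
    obtain ⟨h1, h2, h3⟩ := hm
    obtain ⟨h4, h5⟩ := ih hp'
    rw [h4, h5, h1, h2, h3]
    simp
  | read hm _ ih =>
    obtain ⟨h1, h2⟩ := hm
    obtain ⟨h4, h5⟩ := ih hp'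
    rw [h4, h5, h1, h2]
    simp

theorem im_read_all (h : Y → List X) (δ : σ → Y → σ) (s : σ) :
    ∀ (l : List X) (hl : l = [] ∨ ∃ y, l <:+ h y),
    TPath (imRead h) (imEmit h δ) (s, (⟨l, hl⟩ : Buf h)) l [] (s, ⟨[], Or.inl rfl⟩) := by
  intro l
  induction l with
  | nil => intro hl; exact TPath.nil _
  | cons x l ih =>
    intro hl
    have hl' : l = [] ∨ ∃ y, l <:+ h y := by
      rcases hl with hl | ⟨y, hy⟩
      · cases hl
      · exact Or.inr ⟨y, (List.suffix_cons x l).trans hy⟩
    exact TPath.read (q' := (s, (⟨l, hl'⟩ : Buf h))) ⟨rfl, rfl⟩ (ih hl')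

theorem im_complete (h : Y → List X) (δ : σ → Y → σ) (w : List Y) :
    ∀ s : σ, TPath (imRead h) (imEmit h δ) (s, (⟨[], Or.inl rfl⟩ : Buf h)) (w.flatMap h) w
      (w.foldl δ s, ⟨[], Or.inl rfl⟩) := by
  induction w with
  | nil => intro s; exact TPath.nil _
  | cons y w ih =>
    intro s
    rw [List.flatMap_cons, List.foldl_cons]
    refine TPath.emit (q' := (δ s y, (⟨h y, Or.inr ⟨y, List.suffix_rfl⟩⟩ : Buf h)))
      ⟨rfl, rfl, rfl⟩ ?_
    have h1 := im_read_all h δ (δ s y) (h y) (Or.inr ⟨y, List.suffix_rfl⟩)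
    have := h1.append (ih (δ s y))
    rwa [List.nil_append] at this

/-- **Closure of context-free languages under inverse morphisms and regular intersection.** -/
theorem isContextFree_inverse_inter [Finite X] [Finite Y] (h : Y → List X) {L : Language X}
    (hL : L.IsContextFree) {R : Language Y} (hR : R.IsRegular) :
    Language.IsContextFree ({w : List Y | w.flatMap h ∈ L ∧ w ∈ R} : Set (List Y)) := by
  obtain ⟨g, rfl⟩ := hL
  obtain ⟨τ, hτ, M, rfl⟩ := hR
  refine ⟨prodGrammar g (imRead h) (imEmit h M.step) (M.start, (⟨[], Or.inl rfl⟩ : Buf h))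
    {p | p.1 ∈ M.accept ∧ p.2.1 = []}, ?_⟩
  ext w
  rw [mem_prodGrammar_language]
  constructor
  · rintro ⟨qf, ⟨hq1, hq2⟩, v, hv, hp⟩
    obtain ⟨h1, h2⟩ := im_sound h M.step hp hq2
    have h1' : v = w.flatMap h := h1
    subst h1'
    refine ⟨hv, ?_⟩
    rw [DFA.mem_accepts]
    have h2' : qf.1 = w.foldl M.step M.start := h2
    change w.foldl M.step M.start ∈ M.accept
    rw [← h2']
    exact hq1
  · rintro ⟨h1, h2⟩
    rw [DFA.mem_accepts] at h2
    exact ⟨(w.foldl M.step M.start, ⟨[], Or.inl rfl⟩), ⟨h2, rfl⟩, _, h1,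
      im_complete h M.step w M.start⟩

end InverseMorphism

end Pool.Agent.MP_52db1d_lc
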