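import Pool.Agent.MP_52db1d_lc.CFClosure

/-!
A square-free infinite word `p` over four letters (pairs of consecutive letters of the Thue-Morse
word), and the language of all words which are not prefixes of `p`: it is context-free and not
regular.
-/

set_option autoImplicit false

namespace Pool.Agent.MP_52db1d_lc

/-- Thue-Morse sequence. -/
def tm (n : ℕ) : Bool :=
  if h : n = 0 then false else xor (n % 2 == 1) (tm (n / 2))
termination_by n
decreasing_by omega

theorem tm_zero : tm 0 = false := by
  rw [tm]; simp

theorem tm_two_mul (n : ℕ) : tm (2 * n) = tm n := by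
  rcases Nat.eq_zero_or_pos n with rfl | hn
  · rfl
  · rw [tm]
    have h1 : 2 * n ≠ 0 := by omega
    have h2 : 2 * n % 2 = 0 := by omega
    have h3 : 2 * n / 2 = n := by omega
    simp [h1, h2, h3]

theorem tm_two_mul_add_one (n : ℕ) : tm (2 * n + 1) = !tm n := by
  rw [tm]
  have h2 : (2 * n + 1) % 2 = 1 := by omega
  have h3 : (2 * n + 1) / 2 = n := by omega
  simp [h2, h3]

/-- Overlap-freeness of the Thue-Morse sequence. -/
theorem tm_overlapFree (m : ℕ) : ∀ i : ℕ, 1 ≤ m → ¬ ∀ j ≤ m, tm (i + j) = tm (i + m + j) := by
  induction m using Nat.strong_induction_on with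
  | _ m ih =>
    intro i hm h
    rcases Nat.even_or_odd' m with ⟨m', rfl | rfl⟩
    · -- even period
      refine ih m' (by omega) (i / 2) (by omega) fun j hj => ?_
      have h1 := h (2 * j) (by omega)
      rcases Nat.even_or_odd' i with ⟨i', rfl | rfl⟩
      · have e1 : 2 * i' / 2 = i' := by omega
        rw [e1]
        have e2 : 2 * i' + 2 * j = 2 * (i' + j) := by ring
        have e3 : 2 * i' + 2 * m' + 2 * j = 2 * (i' + m' + j) := by ring
        rwa [e2, e3, tm_two_mul, tm_two_mul] at h1
      · have e1 : (2 * i' + 1) / 2 = i' := by omega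
        rw [e1]
        have e2 : 2 * i' + 1 + 2 * j = 2 * (i' + j) + 1 := by ring
        have e3 : 2 * i' + 1 + 2 * m' + 2 * j = 2 * (i' + m' + j) + 1 := by ring
        rw [e2, e3, tm_two_mul_add_one, tm_two_mul_add_one] at h1
        simpa using h1
    · -- odd period
      -- consecutive letters at even positions differ
      have hd : ∀ n, tm (2 * n) ≠ tm (2 * n + 1) := by
        intro n
        rw [tm_two_mul, tm_two_mul_add_one]
        cases tm n <;> simp
      -- all consecutive letters differ on the range
      have hne : ∀ j, j < 2 * (2 * m' + 1) → tm (i + j) ≠ tm (i + j + 1) := by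
        intro j hj
        rcases Nat.even_or_odd' (i + j) with ⟨c, hc | hc⟩
        · rw [hc]
          exact hd c
        · -- `i + j` odd: shift by the period
          rcases Nat.lt_or_ge j (2 * m' + 1) with hj' | hj'
          · have h1 := h j (by omega)
            have h2 := h (j + 1) (by omega)
            have e : i + (2 * m' + 1) + j = 2 * (c + m' + 1) := by omega
            have e' : i + (2 * m' + 1) + (j + 1) = 2 * (c + m' + 1) + 1 := by omega
            have e3 : i + j + 1 = i + (j + 1) := by omega
            rw [e] at h1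
            rw [e'] at h2
            rw [e3, h1, h2]
            exact hd _
          · obtain ⟨j', rfl⟩ := Nat.exists_eq_add_of_le hj'
            have h1 := h j' (by omega)
            have h2 := h (j' + 1) (by omega)
            have e : i + j' = 2 * (c - m') := by omega
            have e' : i + (j' + 1) = 2 * (c - m') + 1 := by omega
            have e1 : i + (2 * m' + 1 + j') = i + (2 * m' + 1) + j' := by omega
            have e2 : i + (2 * m' + 1 + j') + 1 = i + (2 * m' + 1) + (j' + 1) := by omega
            rw [e2, e1, ← h1, ← h2, e, e']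
            exact hd _
      rcases Nat.eq_zero_or_pos m' with rfl | hm'
      · have h1 := h 0 (by omega)
        have h2 := hne 0 (by omega)
        apply h2
        simpa using h1
      · -- two consecutive odd positions in the range
        have key : ∀ n, tm (2 * n + 1) ≠ tm (2 * n + 2) → tm n = tm (n + 1) := by
          intro n hn
          have e : 2 * n + 2 = 2 * (n + 1) := by ring
          rw [e, tm_two_mul, tm_two_mul_add_one] at hn
          revert hn
          cases tm n <;> cases tm (n + 1) <;> simp
        -- choose `j₀ ∈ {0,1}` with `i + j₀ = 2 n + 1`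
        obtain ⟨n, j₀, hj₀, hn⟩ : ∃ n j₀, j₀ ≤ 1 ∧ i + j₀ = 2 * n + 1 := by
          rcases Nat.even_or_odd' i with ⟨i', hi | hi⟩
          · exact ⟨i', 1, le_rfl, by omega⟩
          · exact ⟨i', 0, by omega, by omega⟩
        have h1 := hne j₀ (by omega)
        have h2 := hne (j₀ + 2) (by omega)
        have e1 : i + j₀ + 1 = 2 * n + 2 := by omega
        have e2 : i + (j₀ + 2) = 2 * (n + 1) + 1 := by omega
        have e3 : i + (j₀ + 2) + 1 = 2 * (n + 1) + 2 := by omega
        rw [e1, hn] at h1
        rw [e3, e2] at h2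
        have k1 := key n h1
        have k2 := key (n + 1) h2
        rcases Nat.even_or_odd' n with ⟨c, rfl | rfl⟩
        · exact hd c k1
        · have e4 : 2 * c + 1 + 1 = 2 * (c + 1) := by ring
          rw [e4] at k2
          exact hd (c + 1) k2

/-- Coding of pairs of letters. -/
def code (a b : Bool) : Fin 4 :=
  match a, b with
  | false, false => 0
  | false, true => 1
  | true, false => 2
  | true, true => 3

theorem code_inj {a b a' b' : Bool} (h : code a b = code a' b') : a = a' ∧ b = b' := by
  revert h
  cases a <;> cases b <;> cases a' <;> cases b' <;> simp [code]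

/-- The infinite word of consecutive pairs in the Thue-Morse word. -/
def pw (n : ℕ) : Fin 4 := code (tm n) (tm (n + 1))

/-- First letter of the image of a letter. -/
def ph0 : Fin 4 → Fin 4 := ![1, 1, 2, 2]

/-- Second letter of the image of a letter. -/
def ph1 : Fin 4 → Fin 4 := ![2, 3, 0, 1]

theorem ph0_code (a b : Bool) : ph0 (code a b) = code a (!a) := by
  cases a <;> cases b <;> rfl

theorem ph1_code (a b : Bool) : ph1 (code a b) = code (!a) b := by
  cases a <;> cases b <;> rfl

theorem pw_two_mul (n : ℕ) : pw (2 * n) = ph0 (pw n) := by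
  unfold pw
  rw [ph0_code, tm_two_mul, tm_two_mul_add_one]

theorem pw_two_mul_add_one (n : ℕ) : pw (2 * n + 1) = ph1 (pw n) := by
  unfold pw
  have e : 2 * n + 1 + 1 = 2 * (n + 1) := by ring
  rw [ph1_code, tm_two_mul_add_one, e, tm_two_mul]

theorem pw_zero : pw 0 = 1 := by
  unfold pw
  have h1 : tm 1 = true := by
    have := tm_two_mul_add_one 0
    simpa [tm_zero] using this
  rw [tm_zero, h1]
  rfl

/-- The word `pw` is square-free. -/
theorem pw_squareFree (i m : ℕ) (hm : 1 ≤ m) : ¬ ∀ j < m, pw (i + j) = pw (i + m + j) := by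
  intro h
  refine tm_overlapFree m i hm fun j hj => ?_
  rcases Nat.lt_or_ge j m with hj' | hj'
  · exact (code_inj (h j hj')).1
  · obtain rfl : j = m := by omega
    obtain ⟨j', rfl⟩ : ∃ j', j = j' + 1 := ⟨j - 1, by omega⟩
    have := (code_inj (h j' (by omega))).2
    simpa [add_assoc] using this

/-- Prefixes of `pw`. -/
def Pref : Language (Fin 4) := {w : List (Fin 4) | ∀ i (hi : i < w.length), w[i] = pw i}

/-- The language of words which are not prefixes of `pw`. -/
def CoPref : Language (Fin 4) := {w : List (Fin 4) | ¬ w ∈ Pref}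

theorem mem_Pref {w : List (Fin 4)} : w ∈ Pref ↔ ∀ i (hi : i < w.length), w[i] = pw i := Iff.rfl

theorem mem_CoPref {w : List (Fin 4)} : w ∈ CoPref ↔ w ∉ Pref := Iff.rfl

theorem Pref.of_append {u v : List (Fin 4)} (h : u ++ v ∈ Pref) : u ∈ Pref := by
  intro i hi
  have := h i (by rw [List.length_append]; omega)
  rwa [List.getElem_append_left hi] at this

/-- No element of `Pref` contains a nonempty square. -/
theorem Pref.no_square {x u y : List (Fin 4)} (hu : u ≠ []) : x ++ u ++ u ++ y ∉ Pref := by
  intro h
  have hl : 1 ≤ u.length := List.length_pos_of_ne_nil hu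
  refine pw_squareFree x.length u.length hl fun j hj => ?_
  have h1 := h (x.length + j) (by simp only [List.length_append]; omega)
  have h2 := h (x.length + u.length + j) (by simp only [List.length_append]; omega)
  have a1 : (x ++ u ++ u ++ y)[x.length + j]? = u[j]? := by
    rw [List.append_assoc, List.append_assoc, List.getElem?_append_right (by omega),
      Nat.add_sub_cancel_left, List.getElem?_append_left hj]
  have a2 : (x ++ u ++ u ++ y)[x.length + u.length + j]? = u[j]? := by
    have e : x.length + u.length + j - x.length = u.length + j := by omega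
    rw [List.append_assoc, List.append_assoc, List.getElem?_append_right (by omega), e,
      List.getElem?_append_right (by omega), Nat.add_sub_cancel_left,
      List.getElem?_append_left hj]
  have h1' := (List.getElem?_eq_some_iff).mpr ⟨_, h1⟩
  have h2' := (List.getElem?_eq_some_iff).mpr ⟨_, h2⟩
  rw [a1] at h1'
  rw [a2, h1'] at h2'
  exact Option.some.inj h2'

/-! ### Context-freeness -/

/-- Nonterminals. -/
inductive CN : Type
  | S | W | M (a : Fin 4)
  deriving DecidableEq, Fintype

open Symbol

/-- Rules of the grammar. -/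
inductive CRule : ContextFreeRule (Fin 4) CN → Prop
  | wNil : CRule ⟨CN.W, []⟩
  | wCons (z : Fin 4) : CRule ⟨CN.W, [terminal z, nonterminal CN.W]⟩
  | mBase (a : Fin 4) : CRule ⟨CN.M a, [terminal a]⟩
  | mStep (a z z' : Fin 4) : CRule ⟨CN.M a, [terminal z, nonterminal (CN.M a), terminal z']⟩
  | s0 (z : Fin 4) (h : z ≠ 1) : CRule ⟨CN.S, [terminal z, nonterminal CN.W]⟩
  | s1 (z a b : Fin 4) (h : b ≠ ph0 a) :
      CRule ⟨CN.S, [terminal z, nonterminal (CN.M a), terminal b, nonterminal CN.W]⟩
  | s2 (a b : Fin 4) (h : b ≠ ph1 a) :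
      CRule ⟨CN.S, [nonterminal (CN.M a), terminal b, nonterminal CN.W]⟩

instance : Finite (Symbol (Fin 4) CN) :=
  Finite.of_injective (β := Fin 4 ⊕ CN)
    (fun s => match s with
      | terminal a => Sum.inl a
      | nonterminal n => Sum.inr n)
    (by intro a b h; cases a <;> cases b <;> simp_all)

theorem finite_crule : {r | CRule r}.Finite := by
  have h1 : {l : List (Symbol (Fin 4) CN) | l.length ≤ 4}.Finite := List.finite_length_le _ _
  have h2 : ((fun p : CN × List (Symbol (Fin 4) CN) => (⟨p.1, p.2⟩ :
      ContextFreeRule (Fin 4) CN)) '' (Set.univ ×ˢ {l | l.length ≤ 4})).Finite :=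
    (Set.finite_univ.prod h1).image _
  refine h2.subset ?_
  intro r hr
  refine ⟨(r.input, r.output), ⟨trivial, ?_⟩, rfl⟩
  cases hr <;> simp

/-- The grammar. -/
noncomputable def cg : ContextFreeGrammar (Fin 4) where
  NT := CN
  initial := CN.S
  rules := finite_crule.toFinset

theorem crule_mem {r : ContextFreeRule (Fin 4) CN} (h : CRule r) : r ∈ cg.rules :=
  (Set.Finite.mem_toFinset _).mpr h

theorem mem_crule {r : ContextFreeRule (Fin 4) CN} (h : r ∈ cg.rules) : CRule r :=
  (Set.Finite.mem_toFinset _).mp h

theorem gen_of_crule {n : CN} {o : List (Symbol (Fin 4) CN)} (hr : CRule ⟨n, o⟩)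
    {w : List (Fin 4)} (h : Gen cg o w) : Gen cg [nonterminal n] w := by
  have := Gen.nt (g := cg) ⟨n, o⟩ (crule_mem hr) h Gen.nil
  rwa [List.append_nil] at this

/-- Semantics of nonterminals. -/
def CSem : CN → List (Fin 4) → Prop
  | CN.S, w => w ∈ CoPref
  | CN.W, _ => True
  | CN.M a, w => ∃ α β : List (Fin 4), α.length = β.length ∧ w = α ++ a :: β

/-- Semantics of sentential forms. -/
def CSemL : List (Symbol (Fin 4) CN) → List (Fin 4) → Prop
  | [], w => w = []
  | terminal y :: s, w => ∃ w', w = y :: w' ∧ CSemL s w'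
  | nonterminal n :: s, w => ∃ u v, w = u ++ v ∧ CSem n u ∧ CSemL s v

theorem not_pref_of_two_mul {w : List (Fin 4)} (i : ℕ) (hi : i < w.length)
    (h2 : 2 * i < w.length) (h : w[2 * i] ≠ ph0 w[i]) : w ∈ CoPref := by
  intro hw
  apply h
  rw [hw _ h2, hw _ hi, pw_two_mul]

theorem not_pref_of_two_mul_add_one {w : List (Fin 4)} (i : ℕ) (hi : i < w.length)
    (h2 : 2 * i + 1 < w.length) (h : w[2 * i + 1] ≠ ph1 w[i]) : w ∈ CoPref := by
  intro hw
  apply h
  rw [hw _ h2, hw _ hi, pw_two_mul_add_one]

theorem csem_rule {r : ContextFreeRule (Fin 4) CN} (hr : CRule r) {w : List (Fin 4)}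
    (hw : CSemL r.output w) : CSem r.input w := by
  cases hr with
  | wNil => trivial
  | wCons z => trivial
  | mBase a =>
    obtain ⟨w', rfl, h⟩ := hw
    have h' : w' = [] := h
    subst h'
    exact ⟨[], [], rfl, rfl⟩
  | mStep a z z' =>
    obtain ⟨w', rfl, u, v, rfl, ⟨α, β, hl, rfl⟩, w'', rfl, h⟩ := hw
    have h' : w'' = [] := h
    subst h'
    refine ⟨z :: α, β ++ [z'], by simp [hl], by simp⟩
  | s0 z h =>
    obtain ⟨w', rfl, _⟩ := hw
    intro hw
    have := hw 0 (by simp)
    apply h
    simpa [pw_zero] using this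
  | s1 z a b h =>
    obtain ⟨w', rfl, u, v, rfl, ⟨α, β, hl, rfl⟩, w'', rfl, u', v', rfl, _⟩ := hw
    refine not_pref_of_two_mul (α.length + 1) (by simp) (by simp; omega) ?_
    have e1 : (z :: (α ++ a :: β ++ b :: (u' ++ v')))[α.length + 1]'(by simp) = a := by
      simp
    have e2 : (z :: (α ++ a :: β ++ b :: (u' ++ v')))[2 * (α.length + 1)]'(by simp; omega) = b := by
      have e3 : 2 * (α.length + 1) = (z :: (α ++ a :: β)).length := by
        simp; omega
      have e4 : z :: (α ++ a :: β ++ b :: (u' ++ v')) =
        (z :: (α ++ a :: β)) ++ b :: (u' ++ v') := by simp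
      simp only [e3, e4]
      rw [List.getElem_append_right (by simp)]
      simp
    rw [e1, e2]
    exact h
  | s2 a b h =>
    obtain ⟨u, v, rfl, ⟨α, β, hl, rfl⟩, w'', rfl, u', v', rfl, _⟩ := hw
    refine not_pref_of_two_mul_add_one α.length (by simp) (by simp; omega) ?_
    have e1 : (α ++ a :: β ++ b :: (u' ++ v'))[α.length]'(by simp) = a := by
      simp
    have e2 : (α ++ a :: β ++ b :: (u' ++ v'))[2 * α.length + 1]'(by simp; omega) = b := by
      have e3 : 2 * α.length + 1 = (α ++ a :: β).length := by
        simp; omega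
      simp only [e3]
      rw [List.getElem_append_right (by simp)]
      simp
    rw [e1, e2]
    exact h

theorem csemL_of_gen {s : List (Symbol (Fin 4) cg.NT)} {w : List (Fin 4)}
    (h : Gen cg s w) : CSemL s w := by
  induction h with
  | nil => rfl
  | term a _ ih => exact ⟨_, rfl, ih⟩
  | nt r hr _ _ ih₁ ih₂ => exact ⟨_, _, rfl, csem_rule (mem_crule hr) ih₁, ih₂⟩

theorem gen_W (w : List (Fin 4)) : Gen cg [nonterminal CN.W] w := by
  induction w with
  | nil => exact gen_of_crule CRule.wNil Gen.nil
  | cons z w ih => exact gen_of_crule (CRule.wCons z) (Gen.term z ih)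

theorem gen_M (a : Fin 4) : ∀ (n : ℕ) (α β : List (Fin 4)), α.length = n → β.length = n →
    Gen cg [nonterminal (CN.M a)] (α ++ a :: β) := by
  intro n
  induction n with
  | zero =>
    intro α β hα hβ
    rw [List.length_eq_zero_iff] at hα hβ
    subst hα hβ
    exact gen_of_crule (CRule.mBase a) (Gen.term a Gen.nil)
  | succ n ih =>
    intro α β hα hβ
    obtain ⟨z, α', rfl⟩ := List.exists_cons_of_length_eq_add_one hα
    have hβ0 : β ≠ [] := by
      rintro rfl
      simp at hβ
    have hβ' := List.dropLast_append_getLast hβ0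
    set z' := β.getLast hβ0
    set β' := β.dropLast
    have hl : β'.length = n := by
      have := congrArg List.length hβ'
      simp at this
      omega
    rw [← hβ']
    have h1 := ih α' β' (by simpa using hα) hl
    have h2 : Gen cg [nonterminal (CN.M a), terminal z'] ((α' ++ a :: β') ++ [z']) :=
      h1.append (Gen.term z' Gen.nil)
    have h3 := gen_of_crule (CRule.mStep a z z') (Gen.term z h2)
    simpa using h3

theorem exists_mid {w : List (Fin 4)} (i j : ℕ) (hij : i < j) (hj : j < w.length) :
    w = w.take i ++ w[i] :: ((w.drop (i + 1)).take (j - i - 1)) ++ w[j] :: w.drop (j + 1) := by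
  have h1 : w.drop j = w[j] :: w.drop (j + 1) := List.drop_eq_getElem_cons hj
  have h2 : w.drop i = w[i] :: w.drop (i + 1) := List.drop_eq_getElem_cons (by omega)
  have h3 : w.drop (i + 1) = (w.drop (i + 1)).take (j - i - 1) ++ w.drop j := by
    conv_lhs => rw [← List.take_append_drop (j - i - 1) (w.drop (i + 1))]
    rw [List.drop_drop]
    congr 2
    omega
  conv_lhs => rw [← List.take_append_drop i w, h2, h3, h1]
  simp

theorem gen_of_coPref {w : List (Fin 4)} (hw : w ∈ CoPref) : Gen cg [nonterminal CN.S] w := by
  rw [mem_CoPref, mem_Pref] at hw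
  -- least bad position
  have hex : ∃ i, ∃ hi : i < w.length, w[i] ≠ pw i := by
    by_contra hcon
    apply hw
    intro i hi
    by_contra h
    exact hcon ⟨i, hi, h⟩
  classical
  obtain ⟨j, ⟨hj, hbad⟩, hmin⟩ : ∃ j, (∃ hi : j < w.length, w[j] ≠ pw j) ∧
      ∀ i < j, ∀ hi : i < w.length, w[i] = pw i := by
    refine ⟨Nat.find hex, Nat.find_spec hex, ?_⟩
    intro i hi hi'
    by_contra h
    exact Nat.find_min hex hi ⟨hi', h⟩
  rcases Nat.even_or_odd' j with ⟨i, rfl | rfl⟩
  · rcases Nat.eq_zero_or_pos i with rfl | hi
    · -- position 0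
      cases w with
      | nil => simp at hj
      | cons z w =>
        have hz : z ≠ 1 := by
          rw [pw_zero] at hbad
          simpa using hbad
        exact gen_of_crule (CRule.s0 z hz) (Gen.term z (gen_W w))
    · have h1 := hmin i (by omega) (by omega)
      rw [pw_two_mul, ← h1] at hbad
      have hdec := exists_mid (w := w) i (2 * i) (by omega) hj
      obtain ⟨z, α', hza⟩ := List.exists_cons_of_length_eq_add_one
        (l := w.take i) (n := i - 1) (by simp; omega)
      have hl1 : α'.length = i - 1 := by
        have := congrArg List.length hza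
        simp at this
        omega
      have hl2 : ((w.drop (i + 1)).take (2 * i - i - 1)).length = i - 1 := by
        simp; omega
      rw [hdec, hza]
      exact gen_of_crule (CRule.s1 z _ _ hbad) (Gen.term z ((gen_M _ (i - 1) _ _ hl1 hl2).append
        (Gen.term _ (gen_W _))))
  · have h1 := hmin i (by omega) (by omega)
    rw [pw_two_mul_add_one, ← h1] at hbad
    have hdec := exists_mid (w := w) i (2 * i + 1) (by omega) hj
    have hl1 : (w.take i).length = i := by simp; omega
    have hl2 : ((w.drop (i + 1)).take (2 * i + 1 - i - 1)).length = i := by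
      simp; omega
    rw [hdec]
    exact gen_of_crule (CRule.s2 _ _ hbad) ((gen_M _ i _ _ hl1 hl2).append
      (Gen.term _ (gen_W _)))

end Pool.Agent.MP_52db1d_lc
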