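import Pool.Agent.MP_52db1d_lc.CoPrefix

/-!
The pumping argument: all members of the cylinder generated by `CoPref` are one-locally-linear.
-/

set_option autoImplicit false

namespace Pool.Agent.MP_52db1d_lc

/-- Pigeonhole on consecutive indices. -/
theorem pigeon {σ : Type} [Finite σ] (s : ℕ → σ) :
    ∃ a b, a < b ∧ b ≤ Nat.card σ ∧ s a = s b := by
  have := Fintype.ofFinite σ
  obtain ⟨a, b, hab, h⟩ := Fintype.exists_ne_map_eq_of_card_lt
    (fun k : Fin (Nat.card σ + 1) => s k) (by rw [Fintype.card_fin, Nat.card_eq_fintype_card]; omega)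
  rcases lt_or_gt_of_ne hab with h' | h'
  · exact ⟨a, b, h', by omega, h⟩
  · exact ⟨b, a, h', by omega, h.symm⟩

/-- The combinatorial core. -/
theorem combi (σ : Type) [Finite σ] (c : ℕ) : ∃ N₀ : ℕ, ∀ (st : ℕ → σ) (H m : ℕ → ℕ),
    Monotone H → (∀ p, H (p + 1) ≤ H p + c) → (∀ a b, a < b → b < N₀ → m a < m b) →
    (∃ i j a b d, st i = st j ∧ H i = H j ∧ a < N₀ ∧ b < N₀ ∧ d < N₀ ∧ m a < i ∧ i ≤ m b ∧
      m b < j ∧ j ≤ m d) ∨
    (∃ i j j' a b d, st i = st j ∧ st j = st j' ∧ a < N₀ ∧ b < N₀ ∧ d < N₀ ∧ m a < i ∧ i ≤ m b ∧
      m b < j ∧ j < j' ∧ j' ≤ m d ∧ H i < H j ∧ H j < H j' ∧ H j' + (H j' - H j) ≤ H (m d)) := by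
  set q := Nat.card σ with hq
  set B := q * (q * (c + 1)) with hB
  set D := (q + 1) * (c + 1) with hD
  refine ⟨1 + q * (B + 1) + B + q * D + 1, ?_⟩
  set N := 1 + q * (B + 1) + B + q * D + 1 with hN
  intro st H m hmono hstep hm
  by_cases hA : ∃ i j a b d, st i = st j ∧ H i = H j ∧ a < N ∧ b < N ∧ d < N ∧ m a < i ∧
    i ≤ m b ∧ m b < j ∧ j ≤ m d
  · exact Or.inl hA
  right
  have hm' : ∀ a b, a ≤ b → b < N → m a ≤ m b := by
    intro a b hab hb
    rcases Nat.lt_or_ge a b with h | h
    · exact (hm a b h hb).le
    · have : a = b := by omega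
      subst this
      exact le_rfl
  -- growth of `H` along marks
  have hgrow1 : ∀ s, 1 ≤ s → s + q < N → H (m s) < H (m (s + q)) := by
    intro s hs hsq
    obtain ⟨a, b, hab, hbq, hst⟩ := pigeon (fun k => st (m (s + k)))
    have h1 : H (m (s + a)) ≠ H (m (s + b)) := by
      intro hH
      exact hA ⟨m (s + a), m (s + b), 0, s + a, s + b, hst, hH, by omega, by omega, by omega,
        hm _ _ (by omega) (by omega), le_rfl, hm _ _ (by omega) (by omega), le_rfl⟩
    have h2 : H (m (s + a)) ≤ H (m (s + b)) := hmono (hm' _ _ (by omega) (by omega))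
    have h3 : H (m s) ≤ H (m (s + a)) := hmono (hm' _ _ (by omega) (by omega))
    have h4 : H (m (s + b)) ≤ H (m (s + q)) := hmono (hm' _ _ (by omega) (by omega))
    omega
  have hgrow : ∀ k s, 1 ≤ s → s + q * k < N → H (m s) + k ≤ H (m (s + q * k)) := by
    intro k
    induction k with
    | zero => intro s _ _; simp
    | succ k ih =>
      intro s hs hsk
      have e : q * (k + 1) = q * k + q := by ring
      rw [e] at hsk ⊢
      have h1 := ih s hs (by omega)
      have h2 := hgrow1 (s + q * k) (by omega) (by omega)
      have e' : s + (q * k + q) = s + q * k + q := by ring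
      rw [e']
      omega
  -- windows
  have hwin : ∀ s, 1 ≤ s → s + B < N → ∃ j j', m s ≤ j ∧ j < j' ∧ j' ≤ m (s + B) ∧
      st j = st j' ∧ H j < H j' ∧ H j' - H j ≤ D := by
    intro s hs hsB
    have hg : H (m s) + q * (c + 1) ≤ H (m (s + B)) := by
      rw [hB]
      exact hgrow (q * (c + 1)) s hs (by rw [← hB]; exact hsB)
    have hex : ∀ k, k ≤ q → ∃ p, m s ≤ p ∧ H (m s) + k * (c + 1) ≤ H p := by
      intro k hk
      refine ⟨m (s + B), hm' _ _ (by omega) hsB, ?_⟩
      have : k * (c + 1) ≤ q * (c + 1) := Nat.mul_le_mul_right _ hk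
      omega
    -- the least such cut
    have hex' : ∀ k, ∃ p, k ≤ q → (m s ≤ p ∧ p ≤ m (s + B) ∧ H (m s) + k * (c + 1) ≤ H p ∧
        H p ≤ H (m s) + k * (c + 1) + c) := by
      intro k
      by_cases hk : k ≤ q
      · classical
        have hx := hex k hk
        refine ⟨Nat.find hx, fun _ => ⟨(Nat.find_spec hx).1, ?_, (Nat.find_spec hx).2, ?_⟩⟩
        · refine Nat.find_min' hx ⟨hm' _ _ (by omega) hsB, ?_⟩
          have : k * (c + 1) ≤ q * (c + 1) := Nat.mul_le_mul_right _ hk
          omega
        · by_contra hcon
          have h1 := (Nat.find_spec hx).1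
          rcases Nat.lt_or_ge (m s) (Nat.find hx) with h2 | h2
          · have h3 := hstep (Nat.find hx - 1)
            have e : Nat.find hx - 1 + 1 = Nat.find hx := by omega
            rw [e] at h3
            exact Nat.find_min hx (m := Nat.find hx - 1) (by omega) ⟨by omega, by omega⟩
          · have e : Nat.find hx = m s := by omega
            rw [e] at hcon
            omega
      · exact ⟨0, fun h => absurd h hk⟩
    choose P hP using hex'
    obtain ⟨a, b, hab, hbq, hst⟩ := pigeon (fun k => st (P k))
    obtain ⟨a1, a2, a3, a4⟩ := hP a (by omega)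
    obtain ⟨b1, b2, b3, b4⟩ := hP b (by omega)
    have hHlt : H (P a) < H (P b) := by
      have : (a + 1) * (c + 1) ≤ b * (c + 1) := Nat.mul_le_mul_right _ hab
      have e : (a + 1) * (c + 1) = a * (c + 1) + (c + 1) := by ring
      omega
    have hlt : P a < P b := by
      by_contra hcon
      have := hmono (show P b ≤ P a by omega)
      omega
    refine ⟨P a, P b, a1, hlt, b2, hst, hHlt, ?_⟩
    have h5 : b * (c + 1) ≤ q * (c + 1) := Nat.mul_le_mul_right _ hbq
    have e : D = q * (c + 1) + (c + 1) := by rw [hD]; ring
    have h6 : 0 ≤ a * (c + 1) := Nat.zero_le _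
    omega
  have hwin' : ∀ r, ∃ j j', r ≤ q → (m (1 + r * (B + 1)) ≤ j ∧ j < j' ∧
      j' ≤ m (1 + r * (B + 1) + B) ∧ st j = st j' ∧ H j < H j' ∧ H j' - H j ≤ D) := by
    intro r
    by_cases hr : r ≤ q
    · have h1 : r * (B + 1) ≤ q * (B + 1) := Nat.mul_le_mul_right _ hr
      obtain ⟨j, j', h⟩ := hwin (1 + r * (B + 1)) (by omega) (by omega)
      exact ⟨j, j', fun _ => h⟩
    · exact ⟨0, 0, fun h => absurd h hr⟩
  choose J J' hJ using hwin'
  obtain ⟨r, r', hrr, hrq, hst⟩ := pigeon (fun r => st (J r))
  obtain ⟨a1, a2, a3, a4, a5, a6⟩ := hJ r (by omega)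
  obtain ⟨b1, b2, b3, b4, b5, b6⟩ := hJ r' (by omega)
  have e1 : (r + 1) * (B + 1) ≤ r' * (B + 1) := Nat.mul_le_mul_right _ hrr
  have e2 : (r + 1) * (B + 1) = r * (B + 1) + (B + 1) := by ring
  have e3 : r' * (B + 1) ≤ q * (B + 1) := Nat.mul_le_mul_right _ hrq
  have hmid : m (1 + r * (B + 1) + B) < m (1 + r' * (B + 1)) := hm _ _ (by omega) (by omega)
  have hlast := hgrow D (1 + q * (B + 1) + B) (by omega) (by omega)
  have hle : m (1 + r' * (B + 1) + B) ≤ m (1 + q * (B + 1) + B) := hm' _ _ (by omega) (by omega)
  have hle2 : m (1 + q * (B + 1) + B) ≤ m (1 + q * (B + 1) + B + q * D) :=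
    hm' _ _ (by omega) (by omega)
  have hHi : H (J r) < H (J r') := lt_of_lt_of_le a5 (hmono (by omega))
  have hHj : H (J' r') ≤ H (m (1 + q * (B + 1) + B)) := hmono (by omega)
  refine ⟨J r, J r', J' r', 0, 1 + r * (B + 1) + B, 1 + q * (B + 1) + B + q * D, hst, b4,
    by omega, by omega, by omega, ?_, by omega, by omega, b2, by omega, hHi, b5, by omega⟩
  exact lt_of_lt_of_le (hm 0 (1 + r * (B + 1)) (by omega) (by omega)) a1

/-- Enumeration of a finite set of natural numbers. -/
theorem exists_enum (M : Finset ℕ) (N : ℕ) (hN : N ≤ M.card) :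
    ∃ m : ℕ → ℕ, (∀ a, a < N → m a ∈ M) ∧ ∀ a b, a < b → b < N → m a < m b := by
  refine ⟨fun k => if h : k < M.card then M.orderEmbOfFin rfl ⟨k, h⟩ else 0, ?_, ?_⟩
  · intro a ha
    have h : a < M.card := by omega
    simp only [h, dif_pos]
    exact Finset.orderEmbOfFin_mem _ _ _
  · intro a b hab hb
    have h1 : a < M.card := by omega
    have h2 : b < M.card := by omega
    simp only [h1, h2, dif_pos]
    exact (M.orderEmbOfFin rfl).strictMono hab

/-- Two deletions with close right ends cannot both be prefixes of a square-free word. -/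
theorem not_both_pref {X U W : List (Fin 4)} (hU : U ≠ []) (hl : U.length ≤ W.length)
    (h1 : X ++ (U ++ W) ∈ Pref) (h2 : X ++ W ∈ Pref) : False := by
  have hW : W.take U.length = U := by
    apply List.ext_getElem
    · simp [hl]
    · intro i hi1 hi2
      have a1 := h1 (X.length + i) (by simp; omega)
      have a2 := h2 (X.length + i) (by simp; omega)
      have a1' := (List.getElem?_eq_some_iff).mpr ⟨_, a1⟩
      have a2' := (List.getElem?_eq_some_iff).mpr ⟨_, a2⟩
      rw [List.getElem?_append_right (by omega), Nat.add_sub_cancel_left,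
        List.getElem?_append_left hi2, List.getElem?_eq_getElem hi2] at a1'
      rw [List.getElem?_append_right (by omega), Nat.add_sub_cancel_left,
        List.getElem?_eq_getElem (by omega)] at a2'
      rw [List.getElem_take]
      have := a2'.trans a1'.symm
      exact Option.some.inj this
  have hW' : W = U ++ W.drop U.length := by
    conv_lhs => rw [← List.take_append_drop U.length W, hW]
  rw [hW'] at h1
  apply Pref.no_square (x := X) (u := U) (y := W.drop U.length) hU
  simpa using h1

theorem flatMap_flatten_replicate {α β : Type} (h : α → List β) (u : List α) (k : ℕ) :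
    ((List.replicate k u).flatten).flatMap h = (List.replicate k (u.flatMap h)).flatten := by
  induction k with
  | zero => rfl
  | succ k ih =>
    rw [List.replicate_succ, List.flatten_cons, List.flatMap_append, ih, List.replicate_succ,
      List.flatten_cons]

theorem foldl_flatten_replicate {σ α : Type} (δ : σ → α → σ) (s : σ) (u : List α)
    (h : u.foldl δ s = s) (k : ℕ) : ((List.replicate k u).flatten).foldl δ s = s := by
  induction k with
  | zero => rfl
  | succ k ih =>
    rw [List.replicate_succ, List.flatten_cons, List.foldl_append, h, ih]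

/-- All members of the cylinder generated by `CoPref` are one-locally-linear. -/
theorem oneLocallyLinear {n : ℕ} (h : Fin n → List (Fin 4)) (R : Language (Fin n))
    (hR : R.IsRegular) :
    ∃ N₀ : ℕ, ∀ f : List (Fin n), (f.flatMap h ∈ CoPref ∧ f ∈ R) → ∀ M : Finset ℕ,
      (∀ i ∈ M, i < f.length) → N₀ ≤ M.card →
      ∃ x u y : List (Fin n), f = x ++ u ++ y ∧
        (∀ k : ℕ, (x ++ (List.replicate k u).flatten ++ y).flatMap h ∈ CoPref ∧
          (x ++ (List.replicate k u).flatten ++ y) ∈ R) ∧
        (∃ i ∈ M, i < x.length) ∧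
        (∃ i ∈ M, x.length ≤ i ∧ i < x.length + u.length) ∧
        (∃ i ∈ M, x.length + u.length ≤ i) := by
  obtain ⟨σ, hσ, A, rfl⟩ := hR
  have hfin : Finite σ := Fintype.finite hσ
  obtain ⟨c, hc⟩ : ∃ c, ∀ y, (h y).length ≤ c :=
    ⟨Finset.univ.sup fun y => (h y).length, fun y =>
      Finset.le_sup (f := fun y => (h y).length) (Finset.mem_univ y)⟩
  obtain ⟨N₀, hN₀⟩ := combi σ c
  refine ⟨N₀, ?_⟩
  rintro f ⟨hf1, hf2⟩ M hM hcard
  obtain ⟨m, hmM, hmlt⟩ := exists_enum M N₀ hcard
  set st : ℕ → σ := fun p => (f.take p).foldl A.step A.start with hst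
  set H : ℕ → ℕ := fun p => ((f.take p).flatMap h).length with hH
  -- general decomposition at cuts `i ≤ j`
  have hdec : ∀ i j, i ≤ j → f = f.take i ++ (f.take j).drop i ++ f.drop j := by
    intro i j hij
    conv_lhs => rw [← List.take_append_drop j f]
    congr 1
    conv_lhs => rw [← List.take_append_drop i (f.take j)]
    rw [List.take_take, min_eq_left hij]
  have htake : ∀ i j, i ≤ j → f.take j = f.take i ++ (f.take j).drop i := by
    intro i j hij
    conv_lhs => rw [← List.take_append_drop i (f.take j)]
    rw [List.take_take, min_eq_left hij]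
  have hHadd : ∀ i j, i ≤ j → H j = H i + (((f.take j).drop i).flatMap h).length := by
    intro i j hij
    change ((f.take j).flatMap h).length = ((f.take i).flatMap h).length + _
    conv_lhs => rw [htake i j hij]
    rw [List.flatMap_append, List.length_append]
  have hmono : Monotone H := by
    intro i j hij
    rw [hHadd i j hij]
    omega
  have hstep : ∀ p, H (p + 1) ≤ H p + c := by
    intro p
    rw [hHadd p (p + 1) (by omega)]
    have h1 : ((f.take (p + 1)).drop p).length ≤ 1 := by
      simp
    rcases hcase : (f.take (p + 1)).drop p with _ | ⟨y, _ | ⟨z, l⟩⟩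
    · simp
    · simpa using hc y
    · rw [hcase] at h1
      simp at h1
  -- loops
  have hloop : ∀ i j, i ≤ j → st i = st j → ∀ k : ℕ,
      (f.take i ++ (List.replicate k ((f.take j).drop i)).flatten ++ f.drop j) ∈ A.accepts := by
    intro i j hij hs k
    rw [DFA.mem_accepts] at hf2 ⊢
    change List.foldl A.step A.start _ ∈ A.accept
    have hf2' : f.foldl A.step A.start ∈ A.accept := hf2
    have e1 : ((f.take j).drop i).foldl A.step (st i) = st i := by
      conv_rhs => rw [hs]
      change List.foldl A.step (List.foldl A.step A.start (f.take i)) _ =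
        (f.take j).foldl A.step A.start
      conv_rhs => rw [htake i j hij]
      rw [List.foldl_append]
    rw [List.foldl_append, List.foldl_append]
    change List.foldl A.step (List.foldl A.step (st i) _) _ ∈ _
    rw [foldl_flatten_replicate _ _ _ e1, hs]
    rw [hdec i j hij, List.foldl_append, ← htake i j hij] at hf2'
    exact hf2'
  have hlen : ∀ i, i ≤ f.length → (f.take i).length = i := fun i hi => by simp [hi]
  have hlen2 : ∀ i j, i ≤ j → j ≤ f.length → ((f.take j).drop i).length = j - i := by
    intro i j hij hj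
    simp [hj]
  -- packaging
  have hpack : ∀ i j a b d, a < N₀ → b < N₀ → d < N₀ → m a < i → i ≤ m b → m b < j → j ≤ m d →
      st i = st j →
      (∀ k : ℕ, (f.take i ++ (List.replicate k ((f.take j).drop i)).flatten ++
        f.drop j).flatMap h ∈ CoPref) →
      ∃ x u y : List (Fin n), f = x ++ u ++ y ∧
        (∀ k : ℕ, (x ++ (List.replicate k u).flatten ++ y).flatMap h ∈ CoPref ∧
          (x ++ (List.replicate k u).flatten ++ y) ∈ A.accepts) ∧
        (∃ i ∈ M, i < x.length) ∧
        (∃ i ∈ M, x.length ≤ i ∧ i < x.length + u.length) ∧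
        (∃ i ∈ M, x.length + u.length ≤ i) := by
    intro i j a b d ha hb hd h1 h2 h3 h4 hs hk
    have hdl : m d < f.length := hM _ (hmM d hd)
    have e1 := hlen i (by omega)
    have e2 := hlen2 i j (by omega) (by omega)
    refine ⟨f.take i, (f.take j).drop i, f.drop j, hdec i j (by omega),
      fun k => ⟨hk k, hloop i j (by omega) hs k⟩, ⟨m a, hmM a ha, by omega⟩,
      ⟨m b, hmM b hb, by omega, by omega⟩, ⟨m d, hmM d hd, by omega⟩⟩
  rcases hN₀ st H m hmono hstep hmlt with
    ⟨i, j, a, b, d, hs, hHij, ha, hb, hd, h1, h2, h3, h4⟩ |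
    ⟨i, j, j', a, b, d, hs, hs', ha, hb, hd, h1, h2, h3, h4, h5, hH1, hH2, hH3⟩
  · -- erased factor
    refine hpack i j a b d ha hb hd h1 h2 h3 h4 hs fun k => ?_
    have hnil : ((f.take j).drop i).flatMap h = [] := by
      have := hHadd i j (by omega)
      apply List.eq_nil_of_length_eq_zero
      omega
    rw [List.flatMap_append, List.flatMap_append, flatMap_flatten_replicate, hnil]
    have hrep : (List.replicate k ([] : List (Fin 4))).flatten = [] := by
      induction k with
      | zero => rfl
      | succ k ih => rw [List.replicate_succ, List.flatten_cons, ih]; rfl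
    rw [hrep]
    have := hf1
    rw [hdec i j (by omega), List.flatMap_append, List.flatMap_append, hnil] at this
    exact this
  · -- non-erased factors
    have hsq : ∀ j₁, i ≤ j₁ → H i < H j₁ → (f.take i).flatMap h ++ (f.drop j₁).flatMap h ∈ CoPref →
        ∀ k : ℕ, (f.take i ++ (List.replicate k ((f.take j₁).drop i)).flatten ++
          f.drop j₁).flatMap h ∈ CoPref := by
      intro j₁ hij hlt hzero k
      rcases k with _ | _ | k
      · simpa using hzero
      · have e : (List.replicate (0 + 1) ((f.take j₁).drop i)).flatten = (f.take j₁).drop i := by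
          simp
        rw [e, ← hdec i j₁ hij]
        exact hf1
      · have hne : ((f.take j₁).drop i).flatMap h ≠ [] := by
          intro hnil
          have := hHadd i j₁ hij
          rw [hnil] at this
          simp at this
          omega
        have := Pref.no_square (x := (f.take i).flatMap h)
          (u := ((f.take j₁).drop i).flatMap h)
          (y := ((List.replicate k ((f.take j₁).drop i)).flatten ++ f.drop j₁).flatMap h) hne
        rw [mem_CoPref]
        intro hcon
        apply this
        have e : f.take i ++ (List.replicate (k + 1 + 1) ((f.take j₁).drop i)).flatten ++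
            f.drop j₁ = f.take i ++ (f.take j₁).drop i ++ (f.take j₁).drop i ++
            ((List.replicate k ((f.take j₁).drop i)).flatten ++ f.drop j₁) := by
          rw [List.replicate_succ, List.flatten_cons, List.replicate_succ, List.flatten_cons]
          simp only [List.append_assoc]
        rw [e, List.flatMap_append, List.flatMap_append, List.flatMap_append] at hcon
        exact hcon
    by_cases hz : (f.take i).flatMap h ++ (f.drop j).flatMap h ∈ CoPref
    · exact hpack i j a b d ha hb hd h1 h2 h3 (by omega) hs (hsq j (by omega) hH1 hz)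
    · refine hpack i j' a b d ha hb hd h1 h2 (by omega) h5 (hs.trans hs')
        (hsq j' (by omega) (by omega) ?_)
      rw [mem_CoPref, not_not] at hz
      rw [mem_CoPref]
      intro hcon
      have hdrop : f.drop j = (f.take j').drop j ++ f.drop j' := by
        have hl : (f.take j').length = j' := by
          have : m d < f.length := hM _ (hmM d hd)
          exact hlen j' (by omega)
        conv_lhs => rw [← List.take_append_drop j' f]
        rw [List.drop_append_of_le_length (by omega)]
      rw [hdrop, List.flatMap_append] at hz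
      have hlW : ((f.take j').drop j |>.flatMap h).length ≤ ((f.drop j').flatMap h).length := by
        have e1 := hHadd j j' (by omega)
        have e2 : H (m d) ≤ (f.flatMap h).length := by
          have := hmono (show m d ≤ f.length from (hM _ (hmM d hd)).le)
          have e : H f.length = (f.flatMap h).length := by
            simp only [hH, List.take_length]
          rwa [e] at this
        have e3 : (f.flatMap h).length = H j' + ((f.drop j').flatMap h).length := by
          conv_lhs => rw [← List.take_append_drop j' f]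
          rw [List.flatMap_append, List.length_append]
        omega
      have hUne : ((f.take j').drop j).flatMap h ≠ [] := by
        intro hnil
        have := hHadd j j' (by omega)
        rw [hnil] at this
        simp at this
        omega
      exact not_both_pref hUne hlW hz hcon

end Pool.Agent.MP_52db1d_lc
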